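import Pool.Agent.AT12.Stmts3
import Pool.Agent.Helper50_PP.Ffa
import Pool.Agent.Helper11_K9.Base

/-!
# AT12, row GAL: the Galois conjugates
-/

open scoped BigOperators

set_option autoImplicit false

noncomputable section

namespace Pool.Agent.PP.T12.H76

open Pool.Agent.Helper51_AWC Pool.Agent.Helper79_WRA Pool.Agent.PP Pool.Agent.PP.KF
open Pool.Agent.PP.K9 Pool.Agent.PP.K9.H97 Pool.Agent.PP.H75 Pool.Agent.PP.T3 Pool.Agent.PP.T2
open Pool.Agent.PP.T8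

attribute [local instance] Ideal.Quotient.field

section pz

/-- polynomial values at the powers of `ζ` -/
def PZ (q : ℕ) (ζ : ℂ) (v : ℕ → ℂ) : Prop :=
  ∃ n : ℕ → ℤ, ∀ j : ℕ, v j = ∑ i ∈ Finset.range q, (n i : ℂ) * ζ ^ (i * j)

theorem PZ.zero {q : ℕ} {ζ : ℂ} : PZ q ζ (fun _ => 0) := ⟨fun _ => 0, fun j => by simp⟩

theorem PZ.add {q : ℕ} {ζ : ℂ} {v w : ℕ → ℂ} (hv : PZ q ζ v) (hw : PZ q ζ w) :
    PZ q ζ (fun j => v j + w j) := by
  obtain ⟨n, hn⟩ := hv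
  obtain ⟨m, hm⟩ := hw
  refine ⟨fun i => n i + m i, fun j => ?_⟩
  show v j + w j = _
  rw [hn, hm, ← Finset.sum_add_distrib]
  exact Finset.sum_congr rfl fun i _ => by push_cast; ring

theorem PZ.zmul {q : ℕ} {ζ : ℂ} {v : ℕ → ℂ} (c : ℤ) (hv : PZ q ζ v) :
    PZ q ζ (fun j => c * v j) := by
  obtain ⟨n, hn⟩ := hv
  refine ⟨fun i => c * n i, fun j => ?_⟩
  show (c : ℂ) * v j = _
  rw [hn, Finset.mul_sum]
  exact Finset.sum_congr rfl fun i _ => by push_cast; ring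

theorem PZ.sub {q : ℕ} {ζ : ℂ} {v w : ℕ → ℂ} (hv : PZ q ζ v) (hw : PZ q ζ w) :
    PZ q ζ (fun j => v j - w j) := by
  have h := hv.add (PZ.zmul (-1) hw)
  obtain ⟨n, hn⟩ := h
  refine ⟨n, fun j => ?_⟩
  rw [← hn j]
  push_cast
  ring

theorem PZ.sum {q : ℕ} {ζ : ℂ} {ι : Type} (s : Finset ι) {v : ι → ℕ → ℂ}
    (hv : ∀ i ∈ s, PZ q ζ (v i)) : PZ q ζ (fun j => ∑ i ∈ s, v i j) := by
  classical
  induction s using Finset.induction_on with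
  | empty => simpa using PZ.zero
  | insert a s ha ih =>
    have h := (hv a (Finset.mem_insert_self a s)).add
      (ih fun i hi => hv i (Finset.mem_insert_of_mem hi))
    obtain ⟨n, hn⟩ := h
    refine ⟨n, fun j => ?_⟩
    rw [← hn j]
    exact Finset.sum_insert ha

/-- a polynomial which vanishes at `ζ` vanishes at the conjugates -/
theorem PZ.conj {q : ℕ} {ζ : ℂ} (hζ : IsPrimitiveRoot ζ q) (hq : 0 < q) {v : ℕ → ℂ}
    (hv : PZ q ζ v) (h1 : v 1 = 0) {j : ℕ} (hj : j.Coprime q) : v j = 0 := by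
  obtain ⟨n, hn⟩ := hv
  obtain ⟨P, hP⟩ : ∃ P : Polynomial ℤ, P = ∑ i ∈ Finset.range q,
    Polynomial.C (n i) * Polynomial.X ^ i := ⟨_, rfl⟩
  have hev : ∀ z : ℂ, Polynomial.aeval z P = ∑ i ∈ Finset.range q, (n i : ℂ) * z ^ i := by
    intro z
    rw [hP, map_sum]
    exact Finset.sum_congr rfl fun i _ => by simp
  have hj1 : ∀ j, v j = Polynomial.aeval (ζ ^ j) P := by
    intro j
    rw [hn, hev]
    exact Finset.sum_congr rfl fun i _ => by rw [mul_comm i j, pow_mul]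
  have hint : IsIntegral ℤ ζ := hζ.isIntegral hq
  have h2 : Polynomial.aeval ζ P = 0 := by
    have := hj1 1
    rw [pow_one, h1] at this
    exact this.symm
  have h3 : minpoly ℤ ζ ∣ P := minpoly.isIntegrallyClosed_dvd hint h2
  rw [hζ.minpoly_eq_pow_coprime hj] at h3
  rw [hj1]
  obtain ⟨Q, hQ⟩ := h3
  rw [hQ, map_mul, minpoly.aeval, zero_mul]

end pz

section arith

/-- reindexing the nonzero residues -/
theorem sum_reindex {ℓ : ℕ} (hℓ : ℓ.Prime) {j : ℕ} (hj : ¬ ℓ ∣ j) (F : ℕ → ℂ)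
    (hF : ∀ k, F (k % ℓ) = F k) :
    ∑ k ∈ Finset.Ico 1 ℓ, F k = ∑ k ∈ Finset.Ico 1 ℓ, F (j * k) := by
  classical
  have hcop : Nat.Coprime ℓ j := (Nat.Prime.coprime_iff_not_dvd hℓ).2 hj
  have hmaps : ∀ k ∈ Finset.Ico 1 ℓ, (j * k) % ℓ ∈ Finset.Ico 1 ℓ := by
    intro k hk
    rw [Finset.mem_Ico] at hk ⊢
    refine ⟨?_, Nat.mod_lt _ hℓ.pos⟩
    rw [Nat.one_le_iff_ne_zero]
    intro h0
    have h1 : ℓ ∣ j * k := Nat.dvd_of_mod_eq_zero h0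
    have h2 : ℓ ∣ k := hcop.dvd_of_dvd_mul_left h1
    exact absurd (Nat.le_of_dvd (by omega) h2) (by omega)
  have hinj : Set.InjOn (fun k => (j * k) % ℓ) (Finset.Ico 1 ℓ : Finset ℕ) := by
    intro a ha b hb hab
    rw [Finset.coe_Ico, Set.mem_Ico] at ha hb
    have h1 : j * a ≡ j * b [MOD ℓ] := hab
    have h2 : a ≡ b [MOD ℓ] := Nat.ModEq.cancel_left_of_coprime hcop h1
    exact Nat.ModEq.eq_of_lt_of_lt h2 ha.2 hb.2
  have himg : (Finset.Ico 1 ℓ).image (fun k => (j * k) % ℓ) = Finset.Ico 1 ℓ := by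
    refine Finset.eq_of_subset_of_card_le (Finset.image_subset_iff.2 hmaps) ?_
    rw [Finset.card_image_of_injOn hinj]
  calc ∑ k ∈ Finset.Ico 1 ℓ, F k
      = ∑ k ∈ (Finset.Ico 1 ℓ).image (fun k => (j * k) % ℓ), F k := by rw [himg]
    _ = ∑ k ∈ Finset.Ico 1 ℓ, F ((j * k) % ℓ) := Finset.sum_image hinj
    _ = ∑ k ∈ Finset.Ico 1 ℓ, F (j * k) := Finset.sum_congr rfl fun k _ => hF _

end arith

section grp

variable {G : Type} [Group G]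

theorem cu_pow {u : G} {q j : ℕ} (hu : u ^ q = 1) (hj : j.Coprime q) (hq : 1 < q) :
    Cu (u ^ j) = Cu u := by
  obtain ⟨c, -, hc⟩ := Nat.exists_mul_mod_eq_one_of_coprime hj hq
  have hu1 : (u ^ j) ^ c = u := by
    rw [← pow_mul, ← Nat.div_add_mod (j * c) q, pow_add, pow_mul, hu, one_pow, one_mul, hc,
      pow_one]
  refine le_antisymm ?_ ?_
  · intro x hx
    rw [Subgroup.mem_centralizer_singleton_iff] at hx ⊢
    have h1 : Commute x (u ^ j) := hx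
    have h2 := h1.pow_right c
    rw [hu1] at h2
    exact h2
  · intro x hx
    rw [Subgroup.mem_centralizer_singleton_iff] at hx ⊢
    have h1 : Commute x u := hx
    exact h1.pow_right j

end grp

section main

theorem gal (hC : CrgStmt) (hI : C2.Int2Stmt) (hR : InrStmt) (hD : DpwStmt) : GalStmt := by
  classical
  intro ℓ _ M _ hℓM G H _ _ _ _ N e V γ b d c ε y w β π m K g θ hSg ζ hζ χ hχ
  have hℓ : ℓ.Prime := Fact.out
  have hF : GoodF ℓ (FF M) := H50.fld ℓ hℓ M hℓM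
  have hq : 1 < ℓ ^ 2 := Nat.one_lt_pow (by norm_num) hℓ.one_lt
  have hq0 : 0 < ℓ ^ 2 := by omega
  obtain ⟨crg1, crg2, crg3⟩ := hC ℓ (FF M) hF hSg.odd G e V γ hSg.dat.ld y w m hSg.cs
  obtain ⟨dp1, dp2, -⟩ := hD ℓ M hℓM hSg.odd G e V γ b d c ε hSg.dat
  have hyw : Commute y w := hSg.dat.ld.ab y hSg.cs.yV w hSg.cs.wV
  have hyq : y ^ ℓ ^ 2 = 1 := by
    rw [← hSg.cs.oy]
    exact pow_orderOf_eq_one y
  have hwq : w ^ ℓ ^ 2 = 1 := by
    rw [← hSg.cs.ow]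
    exact pow_orderOf_eq_one w
  have h1n : ¬ ℓ ∣ 1 := fun h => hℓ.one_lt.ne' (Nat.dvd_one.1 h)
  have hcop : ∀ j, ¬ ℓ ∣ j → j.Coprime (ℓ ^ 2) := fun j hj =>
    ((Nat.Prime.coprime_iff_not_dvd hℓ).2 hj).symm.pow_right 2
  obtain ⟨u, hu⟩ : ∃ u : ℕ → G, u = fun k => y * w ^ (ℓ * k) := ⟨_, rfl⟩
  have huk : ∀ k, u k = y * w ^ (ℓ * k) := fun k => by rw [hu]
  have huj : ∀ k j, u k ^ j = y ^ j * w ^ (ℓ * (j * k)) := by
    intro k j
    rw [huk, (hyw.pow_right (ℓ * k)).mul_pow, ← pow_mul]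
    congr 2
    ring
  have huq : ∀ k, u k ^ ℓ ^ 2 = 1 := by
    intro k
    rw [huj, hyq, one_mul]
    have : ℓ * (ℓ ^ 2 * k) = ℓ ^ 2 * (ℓ * k) := by ring
    rw [this, pow_mul, hwq, one_pow]
  have hreg : ∀ k, ¬ ℓ ∣ k → Rg V γ (u k) := by
    intro k hk
    have := crg1 1 k h1n hk
    rwa [pow_one, ← huk] at this
  obtain ⟨W, hWd⟩ : ∃ W : ℕ → ℕ → ℂ, W = fun k j =>
    (ε (u k) : ℂ) * (gv M (Cu (u k)) (u k ^ j) (b (u k)) χ / d (u k)) := ⟨_, rfl⟩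
  have hW : ∀ k, ¬ ℓ ∣ k → PZ (ℓ ^ 2) ζ (W k) := by
    intro k hk
    have hr := hreg k hk
    have hlc := hSg.dat.lc (u k) hr
    obtain ⟨n, hn⟩ := hR M G (u k) (ℓ ^ 2) hq0 (huq k) (b (u k))
      ⟨hlc.blk.supp, hlc.blk.blk.1⟩ (d (u k)) (hSg.dat.dg (u k) hr) ζ hζ χ hχ
    have hd : (d (u k) : ℂ) ≠ 0 := Nat.cast_ne_zero.2 (hSg.dat.dg (u k) hr).1.ne'
    have h1 : PZ (ℓ ^ 2) ζ (fun j => gv M (Cu (u k)) (u k ^ j) (b (u k)) χ / d (u k)) := by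
      refine ⟨n, fun j => ?_⟩
      show gv M (Cu (u k)) (u k ^ j) (b (u k)) χ / d (u k) = _
      rw [hn, mul_div_cancel_left₀ _ hd]
    have h2 := PZ.zmul (ε (u k)) h1
    rw [hWd]
    exact h2
  have hWv : ∀ k j, ¬ ℓ ∣ k → ¬ ℓ ∣ j →
      (ε (u k ^ j) : ℂ) * vv M b d (u k ^ j) χ = W k j := by
    intro k j hk hj
    obtain ⟨-, e1, e2, e3⟩ := dp2 (u k) (hreg k hk) j hj
    rw [hWd]
    show _ = (ε (u k) : ℂ) * (gv M (Cu (u k)) (u k ^ j) (b (u k)) χ / d (u k))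
    rw [vv, e1, e2, e3, cu_pow (huq k) (hcop j hj) hq]
  have hvk : ∀ k j, ¬ ℓ ∣ k → ¬ ℓ ∣ j → vk M ℓ b d ε y w j (j * k) χ = W k j := by
    intro k j hk hj
    rw [← hWv k j hk hj, vk, huj]
  have hper : ∀ j k, vk M ℓ b d ε y w j (k % ℓ) χ = vk M ℓ b d ε y w j k χ := by
    intro j k
    have h1 : w ^ (ℓ * (k % ℓ)) = w ^ (ℓ * k) := by
      conv_rhs => rw [← Nat.mod_add_div k ℓ]
      have : ℓ * (k % ℓ + ℓ * (k / ℓ)) = ℓ * (k % ℓ) + ℓ ^ 2 * (k / ℓ) := by ring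
      rw [this, pow_add, pow_mul w (ℓ ^ 2), hwq, one_pow, mul_one]
    rw [vk, vk, h1]
  have hIco : ∀ k ∈ Finset.Ico 1 ℓ, ¬ ℓ ∣ k := by
    intro k hk hd
    rw [Finset.mem_Ico] at hk
    exact absurd (Nat.le_of_dvd (by omega) hd) (by omega)
  have hsum : ∀ j, ¬ ℓ ∣ j → ∑ k ∈ Finset.Ico 1 ℓ, vk M ℓ b d ε y w j k χ =
      ∑ k ∈ Finset.Ico 1 ℓ, W k j := by
    intro j hj
    rw [sum_reindex hℓ hj (fun k => vk M ℓ b d ε y w j k χ) (hper j)]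
    exact Finset.sum_congr rfl fun k hk => hvk k j (hIco k hk) hj
  -- the numbers of the singular part
  have hAv : ∀ s : Fin m, PZ (ℓ ^ 2) ζ (fun j => Av ℓ π (y ^ j) (g s) χ) := fun s =>
    hI ℓ 2 G H y π hSg.sy.qn (g s) (H11.ze_zi M _ (hSg.sy.cd.ze s)) (hSg.sy.cd.rc s) χ hχ ζ hζ
  have hbq : PZ (ℓ ^ 2) ζ (fun j => bq ℓ π g (y ^ j) χ) :=
    PZ.sum Finset.univ fun s _ => hAv s
  have hℓ0 : (ℓ : ℂ) ≠ 0 := Nat.cast_ne_zero.2 hℓ.pos.ne'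
  have haa : ∀ j, ¬ ℓ ∣ j → ℓ * aa M ℓ b d ε y w π g θ j χ =
      (θ : ℂ) * bq ℓ π g (y ^ j) χ + ∑ k ∈ Finset.Ico 1 ℓ, W k j := by
    intro j hj
    rw [aa, ← mul_assoc, mul_inv_cancel₀ hℓ0, one_mul, hsum j hj]
  refine ⟨fun s s' => (hAv s).sub (hAv s'), ?_, ?_, ?_⟩
  · obtain ⟨n, hn⟩ := (PZ.zmul θ hbq).add (PZ.sum (Finset.Ico 1 ℓ) fun k hk => hW k (hIco k hk))
    exact ⟨n, fun j hj => (haa j hj).trans (hn j)⟩
  · intro heq
    have hm : 0 < m := lt_of_lt_of_le (by norm_num) hSg.cs.two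
    obtain ⟨s₀, -⟩ : ∃ s : Fin m, True := ⟨⟨0, hm⟩, trivial⟩
    have hconst : ∀ j, ¬ ℓ ∣ j → ∀ s, Av ℓ π (y ^ j) (g s) χ = Av ℓ π (y ^ j) (g s₀) χ := by
      intro j hj s
      have h1 := PZ.conj hζ hq0 ((hAv s).sub (hAv s₀)) (by
        show Av ℓ π (y ^ 1) (g s) χ - Av ℓ π (y ^ 1) (g s₀) χ = 0
        rw [pow_one, heq s s₀, sub_self]) (hcop j hj)
      exact sub_eq_zero.1 h1
    have hbq2 : ∀ j, ¬ ℓ ∣ j → bq ℓ π g (y ^ j) χ = m * Av ℓ π (y ^ j) (g s₀) χ := by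
      intro j hj
      rw [bq, Finset.sum_congr rfl fun s _ => hconst j hj s, Finset.sum_const, Finset.card_univ,
        Fintype.card_fin, nsmul_eq_mul]
    -- the classes
    obtain ⟨R, hRd⟩ : ∃ R : ℕ → ℕ → Prop, R = fun k k' => ∃ t ∈ Tg V γ,
      t * u k * t⁻¹ = u k' := ⟨_, rfl⟩
    have hRk : ∀ k k', R k k' ↔ ∃ t ∈ Tg V γ, t * u k * t⁻¹ = u k' := fun k k' => by rw [hRd]
    have hRe : Equivalence R := by
      refine ⟨fun k => (hRk k k).2 ⟨1, one_mem _, by simp⟩, fun {k k'} h => ?_,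
        fun {k k' k''} h h' => ?_⟩
      · obtain ⟨t, ht, h1⟩ := (hRk _ _).1 h
        refine (hRk _ _).2 ⟨t⁻¹, inv_mem ht, ?_⟩
        rw [← h1]
        group
      · obtain ⟨t, ht, h1⟩ := (hRk _ _).1 h
        obtain ⟨t', ht', h2⟩ := (hRk _ _).1 h'
        refine (hRk _ _).2 ⟨t' * t, mul_mem ht' ht, ?_⟩
        rw [← h2, ← h1]
        group
    obtain ⟨st, hst⟩ : ∃ st : Setoid ℕ, st = ⟨R, hRe⟩ := ⟨_, rfl⟩
    have hmk : ∀ k k', (Quotient.mk st k = Quotient.mk st k') ↔ R k k' := by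
      intro k k'
      subst hst
      exact Quotient.eq
    have hRdvd : ∀ k k', R k k' → (ℓ ∣ k ↔ ℓ ∣ k') := by
      intro k k' h
      obtain ⟨t, ht, h1⟩ := (hRk _ _).1 h
      have h2 := crg2 1 1 k k' h1n (Nat.ModEq.refl _) t ht
      rw [pow_one, ← huk, ← huk] at h2
      exact (h2 h1).2.2
    have hRW : ∀ k k', R k k' → ¬ ℓ ∣ k → ∀ j, ¬ ℓ ∣ j → W k j = W k' j := by
      intro k k' h hk j hj
      obtain ⟨t, ht, h1⟩ := (hRk _ _).1 h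
      have hk' : ¬ ℓ ∣ k' := fun h' => hk ((hRdvd k k' h).2 h')
      have h2 : u k' ^ j = t * u k ^ j * t⁻¹ := by
        rw [← h1, conj_pow]
      obtain ⟨-, e1, e2⟩ := dp1 t ht (u k ^ j) (dp2 (u k) (hreg k hk) j hj).1
      rw [← hWv k j hk hj, ← hWv k' j hk' hj, h2, e1, e2 χ hχ]
    have hout : ∀ k, R (Quotient.mk st k).out k := by
      intro k
      rw [← hmk, Quotient.out_eq]
    have hcard : ∀ a ∈ (Finset.Ico 1 ℓ).image (Quotient.mk st),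
        ((Finset.Ico 1 ℓ).filter (fun k => Quotient.mk st k = a)).card = m := by
      intro a ha
      obtain ⟨k₀, hk₀, rfl⟩ := Finset.mem_image.1 ha
      have h1 := crg3 1 k₀ h1n (hIco k₀ hk₀)
      rw [← h1, ← Set.ncard_coe_finset]
      congr 1
      ext k
      rw [Finset.mem_coe, Finset.mem_filter, Finset.mem_Ico, hmk, Set.mem_ofPred_eq]
      constructor
      · rintro ⟨⟨h2, h3⟩, h4⟩
        obtain ⟨t, ht, h5⟩ := (hRk _ _).1 (hRe.symm h4)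
        refine ⟨h2, h3, t, ht, ?_⟩
        rw [pow_one, ← huk, ← huk]
        exact h5
      · rintro ⟨h2, h3, t, ht, h5⟩
        rw [pow_one, ← huk, ← huk] at h5
        exact ⟨⟨h2, h3⟩, hRe.symm ((hRk _ _).2 ⟨t, ht, h5⟩)⟩
    have hsum2 : ∀ j, ¬ ℓ ∣ j → ∑ k ∈ Finset.Ico 1 ℓ, W k j =
        m * ∑ a ∈ (Finset.Ico 1 ℓ).image (Quotient.mk st), W a.out j := by
      intro j hj
      have h1 : ∀ k ∈ Finset.Ico 1 ℓ, W k j = (fun a : Quotient st => W a.out j)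
          (Quotient.mk st k) := by
        intro k hk
        have hk' : ¬ ℓ ∣ (Quotient.mk st k).out := fun h =>
          hIco k hk ((hRdvd _ _ (hout k)).1 h)
        exact (hRW _ _ (hout k) hk' j hj).symm
      rw [Finset.sum_congr rfl h1, Finset.sum_comp (fun a : Quotient st => W a.out j)
        (Quotient.mk st), Finset.mul_sum]
      exact Finset.sum_congr rfl fun a ha => by rw [hcard a ha, nsmul_eq_mul]
    have hPZ : PZ (ℓ ^ 2) ζ (fun j => ∑ a ∈ (Finset.Ico 1 ℓ).image (Quotient.mk st),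
        W a.out j) := by
      refine PZ.sum _ fun a ha => hW _ ?_
      obtain ⟨k₀, hk₀, rfl⟩ := Finset.mem_image.1 ha
      exact fun h => hIco k₀ hk₀ ((hRdvd _ _ (hout k₀)).1 h)
    obtain ⟨n, hn⟩ := (PZ.zmul θ (hAv s₀)).add hPZ
    refine ⟨n, fun j hj => ?_⟩
    rw [haa j hj, hbq2 j hj, hsum2 j hj, ← hn j]
    ring
  · obtain ⟨n, hn⟩ := hW 1 h1n
    refine ⟨n, fun j hj => ?_⟩
    rw [← hn j, ← hvk 1 j h1n hj, mul_one]

end main

end Pool.Agent.PP.T12.H76
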